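import Pool.Agent.Helper7.KS3.Goals
import Pool.Agent.Helper41.Girth4.Prob
import Pool.Agent.Helper51.Girth4.LLL

/-! Packet KS3-STP (MP_c4bd07_co): one step. -/

set_option autoImplicit false
open Classical

namespace Pool.Agent.Helper13.KS3

open Pool.Agent.Helper41.Girth4 Pool.Agent.Helper51.Girth4

theorem exp_le_q (q : ℕ) (hq : 1 ≤ q) : Real.exp (1 / ((q : ℝ) + 1)) ≤ 1 + 1 / (q : ℝ) := by
  have hq0 : (0 : ℝ) < q := by exact_mod_cast hq
  have h1 : 1 - 1 / ((q : ℝ) + 1) ≤ Real.exp (-(1 / ((q : ℝ) + 1))) := by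
    have := Real.add_one_le_exp (-(1 / ((q : ℝ) + 1)))
    linarith
  have h2 : 1 - 1 / ((q : ℝ) + 1) = q / (q + 1) := by field_simp; ring
  rw [h2, Real.exp_neg] at h1
  have h3 : (0 : ℝ) < Real.exp (1 / ((q : ℝ) + 1)) := Real.exp_pos _
  have h4 : (0 : ℝ) < (q : ℝ) / (q + 1) := by positivity
  have h5 := inv_anti₀ h4 h1
  rw [inv_inv] at h5
  refine h5.trans (le_of_eq ?_)
  field_simp

variable {V : Type} [Fintype V]

/-- the tail bound -/
theorem tail (q b K t : ℕ) (hq : 1 ≤ q) (hb : 1 ≤ b) (P : Finset V) (f : V → Fin b → Fin K)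
    (hf : ∀ u ∈ P, Function.Injective (f u)) (j : Fin K) :
    Pr (fun ω : V → Fin b => (q + 1) * (P.filter (fun u => ∃ i, f u i = j)).card + q * b * t <
      q * b * (P.filter (fun u => f u (ω u) = j)).card) ≤ ((q : ℝ) / (q + 1)) ^ t := by
  have hq0 : (0 : ℝ) < q := by exact_mod_cast hq
  have hb0 : (0 : ℝ) < b := by exact_mod_cast hb
  haveI : Nonempty (Fin b) := ⟨⟨0, hb⟩⟩
  set C : Finset V := P.filter (fun u => ∃ i, f u i = j) with hC
  set X : (V → Fin b) → ℕ := fun ω => (P.filter (fun u => f u (ω u) = j)).card with hX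
  set a : ℝ := 1 + 1 / (q : ℝ) with ha
  have ha1 : 1 ≤ a := by rw [ha]; have : 0 ≤ 1 / (q : ℝ) := by positivity
                         linarith
  -- the moment generating function
  have hmgf : ∑ ω : V → Fin b, a ^ X ω ≤
      (b : ℝ) ^ Fintype.card V * Real.exp ((C.card : ℝ) / (q * b)) := by
    set g : V → Fin b → ℝ := fun u i => if u ∈ P ∧ f u i = j then a else 1 with hg
    have e1 : ∀ ω : V → Fin b, a ^ X ω = ∏ u, g u (ω u) := by
      intro ω
      rw [hX, hg]
      simp only
      rw [← Finset.prod_filter (s := Finset.univ) (fun u => u ∈ P ∧ f u (ω u) = j) (fun _ => a),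
        Finset.prod_const]
      congr 2
      ext u
      simp
    have e2 : ∑ ω : V → Fin b, a ^ X ω = ∏ u, ∑ i, g u i := by
      rw [Finset.prod_univ_sum, Fintype.piFinset_univ]
      exact Finset.sum_congr rfl fun ω _ => e1 ω
    rw [e2]
    have e3 : ∀ u ∈ (Finset.univ : Finset V), ∑ i, g u i ≤
        (b : ℝ) * Real.exp ((if u ∈ C then 1 else 0) / (q * b)) := by
      intro u _
      by_cases hu : u ∈ C
      · rw [if_pos hu]
        rw [hC, Finset.mem_filter] at hu
        obtain ⟨huP, i, hi⟩ := hu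
        have e4 : ∀ i' : Fin b, g u i' = 1 + (if i' = i then 1 / (q : ℝ) else 0) := by
          intro i'
          rw [hg]
          simp only
          by_cases h : i' = i
          · subst h
            rw [if_pos ⟨huP, hi⟩, if_pos rfl]
          · rw [if_neg, if_neg h, add_zero]
            rintro ⟨-, h'⟩
            exact h (hf u huP (h'.trans hi.symm))
        rw [Finset.sum_congr rfl fun i' _ => e4 i', Finset.sum_add_distrib]
        simp only [Finset.sum_const, Finset.card_univ, Fintype.card_fin, nsmul_eq_mul, mul_one,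
          Finset.sum_ite_eq', Finset.mem_univ, if_true]
        have e5 := Real.add_one_le_exp (1 / ((q : ℝ) * b))
        calc (b : ℝ) + 1 / q = b * (1 / (q * b) + 1) := by field_simp; ring
          _ ≤ _ := by gcongr
      · rw [if_neg hu, zero_div, Real.exp_zero, mul_one]
        have e4 : ∀ i' : Fin b, g u i' = 1 := by
          intro i'
          rw [hg]
          simp only
          rw [if_neg]
          rintro ⟨h1, h2⟩
          exact hu (by rw [hC, Finset.mem_filter]; exact ⟨h1, i', h2⟩)
        rw [Finset.sum_congr rfl fun i' _ => e4 i']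
        simp
    have e6 : ∀ u ∈ (Finset.univ : Finset V), 0 ≤ ∑ i, g u i := by
      intro u _
      refine Finset.sum_nonneg fun i _ => ?_
      rw [hg]
      simp only
      split_ifs <;> linarith
    refine (Finset.prod_le_prod e6 e3).trans (le_of_eq ?_)
    rw [Finset.prod_mul_distrib, Finset.prod_const, Finset.card_univ, ← Real.exp_sum,
      ← Finset.sum_div]
    congr 3
    rw [Finset.sum_ite_mem]
    simp
  -- Markov
  have hbad : ∀ ω : V → Fin b, (q + 1) * C.card + q * b * t < q * b * X ω →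
      a ^ t * Real.exp ((C.card : ℝ) / (q * b)) ≤ a ^ X ω := by
    intro ω h
    have h1 : ((q : ℝ) + 1) * C.card + q * b * t < q * b * X ω := by exact_mod_cast h
    have h2 : t ≤ X ω := by
      have : q * b * t < q * b * X ω := by omega
      exact (lt_of_mul_lt_mul_left this (Nat.zero_le _)).le
    obtain ⟨s, hs⟩ := Nat.exists_eq_add_of_le h2
    rw [hs, pow_add]
    refine mul_le_mul_of_nonneg_left ?_ (by positivity)
    have h3 : ((q : ℝ) + 1) * C.card ≤ q * b * s := by
      rw [hs] at h1
      push_cast at h1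
      nlinarith
    have h4 : (C.card : ℝ) / (q * b) ≤ s * (1 / ((q : ℝ) + 1)) := by
      rw [div_le_iff₀ (by positivity), mul_one_div, div_mul_eq_mul_div,
        le_div_iff₀ (by positivity)]
      linarith
    calc Real.exp ((C.card : ℝ) / (q * b)) ≤ Real.exp (s * (1 / ((q : ℝ) + 1))) :=
          Real.exp_le_exp.2 h4
      _ = Real.exp (1 / ((q : ℝ) + 1)) ^ s := by rw [← Real.exp_nat_mul]
      _ ≤ a ^ s := pow_le_pow_left₀ (Real.exp_pos _).le (exp_le_q q hq) s
  rw [Pr_eq_sum]
  set E : ℝ := Real.exp ((C.card : ℝ) / (q * b)) with hE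
  have hE0 : 0 < E := Real.exp_pos _
  have hat : 0 < a ^ t := by positivity
  have hcard : (Fintype.card (V → Fin b) : ℝ) = (b : ℝ) ^ Fintype.card V := by
    rw [Fintype.card_fun, Fintype.card_fin]
    push_cast
    rfl
  rw [hcard, div_le_iff₀ (by positivity)]
  have h6 : (a ^ t * E) * ∑ ω : V → Fin b,
      (if (q + 1) * C.card + q * b * t < q * b * X ω then (1 : ℝ) else 0) ≤
      (b : ℝ) ^ Fintype.card V * E := by
    refine le_trans ?_ hmgf
    rw [Finset.mul_sum]
    refine Finset.sum_le_sum fun ω _ => ?_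
    split_ifs with h
    · rw [mul_one]; exact hbad ω h
    · rw [mul_zero]; positivity
  have h7 : a ^ t * ((q : ℝ) / (q + 1)) ^ t = 1 := by
    rw [← mul_pow, ha]
    have : (1 + 1 / (q : ℝ)) * (q / (q + 1)) = 1 := by field_simp
    rw [this, one_pow]
  have h8 : (a ^ t * E) * (((q : ℝ) / (q + 1)) ^ t * (b : ℝ) ^ Fintype.card V) =
      (b : ℝ) ^ Fintype.card V * E := by
    calc (a ^ t * E) * (((q : ℝ) / (q + 1)) ^ t * (b : ℝ) ^ Fintype.card V)
        = (a ^ t * ((q : ℝ) / (q + 1)) ^ t) * ((b : ℝ) ^ Fintype.card V * E) := by ring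
      _ = _ := by rw [h7, one_mul]
  rw [← h8] at h6
  exact le_of_mul_le_mul_left h6 (by positivity)

/-- Packet STP. -/
theorem s_stp : Pool.Agent.Helper7.KS3.S_STP := by
  intro V _ q b m K N t PD T R A hq hb hm hK hN hPD hA hR hbig
  have hq0 : (0 : ℝ) < q := by exact_mod_cast hq
  -- the choice functions
  have hex : ∀ u : V, ∃ f : Fin b → Fin K, u ∈ T → Function.Injective f ∧ ∀ i, f i ∈ A u := by
    intro u
    by_cases hu : u ∈ T
    · obtain ⟨A', hA', hc⟩ := Finset.exists_subset_card_eq (hA u hu)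
      let e := A'.orderEmbOfFin hc
      exact ⟨e, fun _ => ⟨e.injective, fun i => hA' (Finset.orderEmbOfFin_mem A' hc i)⟩⟩
    · exact ⟨fun _ => ⟨0, hK⟩, fun h => absurd h hu⟩
  choose f hf using hex
  haveI : Nonempty (Fin b) := ⟨⟨0, hb⟩⟩
  let P : V → Finset V := fun v => (PD v).filter (fun u => u ∈ T)
  let S : V × Fin K → Set V := fun x => {u | x.1 ∈ R ∧ u ∈ P x.1}
  let B : V × Fin K → (V → Fin b) → Prop := fun x ω => x.1 ∈ R ∧
    (q + 1) * ((P x.1).filter (fun u => ∃ i, f u i = x.2)).card + q * b * t <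
      q * b * ((P x.1).filter (fun u => f u (ω u) = x.2)).card
  obtain ⟨ω, hω⟩ := stmtLLL (I := V) (J := V × Fin K) (L := Fin b) S B
    (by
      intro x ω ω' h hB
      refine ⟨hB.1, ?_⟩
      have e : (P x.1).filter (fun u => f u (ω' u) = x.2) =
          (P x.1).filter (fun u => f u (ω u) = x.2) := by
        apply Finset.filter_congr
        intro u hu
        rw [h u ⟨hB.1, hu⟩]
      rw [e]
      exact hB.2)
    (((q : ℝ) / (q + 1)) ^ t) (m * N * K)
    (by
      intro x
      refine le_trans (Pr_mono fun ω h => h.2) (tail q b K t hq hb (P x.1) f ?_ x.2)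
      intro u hu
      exact (hf u (Finset.mem_filter.1 hu).2).1)
    (Nat.mul_pos (Nat.mul_pos hm hN) hK)
    (by
      intro x
      have h1 : Nat.card {x' // ¬ Disjoint (S x) (S x')} ≤
          ((((P x.1).biUnion fun u => R.filter fun v => u ∈ PD v) ×ˢ
            (Finset.univ : Finset (Fin K)))).card := by
        rw [Nat.card_eq_fintype_card, Fintype.card_subtype]
        apply Finset.card_le_card
        intro x' hx'
        rw [Finset.mem_filter] at hx'
        obtain ⟨u, hu, hu'⟩ := Set.not_disjoint_iff.1 hx'.2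
        rw [Finset.mem_product]
        refine ⟨Finset.mem_biUnion.2 ⟨u, hu.2, ?_⟩, Finset.mem_univ _⟩
        exact Finset.mem_filter.2 ⟨hu'.1, (Finset.mem_filter.1 hu'.2).1⟩
      refine h1.trans ?_
      rw [Finset.card_product, Finset.card_univ, Fintype.card_fin]
      refine Nat.mul_le_mul_right _ ?_
      refine Finset.card_biUnion_le.trans ?_
      refine (Finset.sum_le_card_nsmul _ _ N fun u hu => hR u (Finset.mem_filter.1 hu).2).trans ?_
      rw [smul_eq_mul]
      exact Nat.mul_le_mul_right _ ((Finset.card_filter_le _ _).trans (hPD x.1)))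
    (by
      have h1 : (4 : ℝ) * (m * N * K) * q ^ t ≤ (q + 1) ^ t := by exact_mod_cast hbig
      push_cast
      rw [div_pow]
      have h2 : (0 : ℝ) < ((q : ℝ) + 1) ^ t := by positivity
      rw [mul_div_assoc', div_mul_eq_mul_div, div_le_one h2]
      linarith)
  refine ⟨fun u => f u (ω u), fun u hu => (hf u hu).2 _, fun v hv j => ?_⟩
  have h := hω (v, j)
  have h2 : ¬ (q + 1) * ((P v).filter (fun u => ∃ i, f u i = j)).card + q * b * t <
      q * b * ((P v).filter (fun u => f u (ω u) = j)).card := fun h' => h ⟨hv, h'⟩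
  have e1 : (PD v).filter (fun u => u ∈ T ∧ f u (ω u) = j) =
      (P v).filter (fun u => f u (ω u) = j) := by
    rw [Finset.filter_filter]
  have e2 : ((P v).filter (fun u => ∃ i, f u i = j)).card ≤
      ((PD v).filter (fun u => u ∈ T ∧ j ∈ A u)).card := by
    apply Finset.card_le_card
    intro u hu
    rw [Finset.mem_filter, Finset.mem_filter] at hu
    obtain ⟨⟨h1, h2⟩, i, hi⟩ := hu
    exact Finset.mem_filter.2 ⟨h1, h2, hi ▸ (hf u h2).2 i⟩
  rw [e1]
  refine (not_lt.1 h2).trans ?_
  gcongr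

end Pool.Agent.Helper13.KS3
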